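import Pool.Agent.H343.QF.StG

set_option autoImplicit false
set_option linter.unusedSectionVars false

/-! # G13: projections on the set of the corners -/

namespace Pool.Agent.H388.QF.G13

open Pool.Agent.TH68 Pool.Agent.Helper97.Hyp Pool.Agent.H343.QF

/-- The estimate for one side. -/
theorem side {X : Type*} [PseudoMetricSpace X] {δ c L : ℝ} (h : GHyp X δ) {x q s z : X}
    (h1 : exc q s z ≤ c) (h2 : dist x q ≤ dist x z) (h3 : c + 2 * δ < dist q z)
    (h4 : dist q z ≤ L) : dist x q + dist q s ≤ dist x s + (L + c + 2 * δ) := by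
  rcases exc_split h q s x z with h5 | h5
  · exfalso
    unfold exc at h1 h5
    rw [dist_comm z x, dist_comm q x] at h5
    linarith
  · have h6 := dist_triangle q z s
    unfold exc at h1 h5
    linarith

theorem cproj : S_cor1 → S_cor2 → S_cproj := by
  intro c1 c2 Γ _ W a b δ D R X lam s E Λ hyp x
  classical
  -- the nearest corner
  obtain ⟨i, hi⟩ : ∃ i : ℤ, ∀ k : ℤ, nd x (pt W (X i)) ≤ nd x (pt W (X k)) := by
    have hne : (Set.range fun k : ℤ => nd x (pt W (X k))).Nonempty := ⟨_, 0, rfl⟩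
    obtain ⟨i, hi⟩ := Nat.sInf_mem hne
    refine ⟨i, fun k => ?_⟩
    have h1 : nd x (pt W (X i)) = sInf (Set.range fun k : ℤ => nd x (pt W (X k))) := hi
    rw [h1]
    exact Nat.sInf_le ⟨k, rfl⟩
  have hi' : ∀ k : ℤ, dist x (pt W (X i)) ≤ dist x (pt W (X k)) := by
    intro k
    rw [dist_eq_nd, dist_eq_nd]
    exact_mod_cast hi k
  obtain ⟨k1, -⟩ := c1 hyp
  have k2 := c2 hyp
  have hδ : 1 ≤ δ := hyp.good.one
  have hδD : δ ≤ D := hyp.good.le
  have hR := hyp.hR
  have hE := hyp.hE
  have hΛ : (E : ℝ) ≤ Λ := by exact_mod_cast hyp.hΛ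
  have hstep : ∀ j : ℤ, (E : ℝ) - 200 * (D + R) ≤ dist (pt W (X j)) (pt W (X (j + 1))) ∧
      dist (pt W (X j)) (pt W (X (j + 1))) ≤ Λ + R := by
    intro j
    obtain ⟨h1, h2⟩ := k2 j (j + 1) (by omega)
    have h3 : ∑ l ∈ Finset.Ico j (j + 1), (lam l : ℝ) = lam j := by
      have h4 : Finset.Ico j (j + 1) = {j} := by
        ext l
        simp only [Finset.mem_Ico, Finset.mem_singleton]
        omega
      rw [h4, Finset.sum_singleton]
    rw [h3] at h1 h2
    have h5 : (E : ℝ) ≤ lam j := by exact_mod_cast hyp.cor.lo j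
    have h6 : (lam j : ℝ) ≤ Λ := by exact_mod_cast hyp.cor.hi j
    push_cast at h1 h2
    constructor <;> linarith
  have hexc : ∀ i m j : ℤ, i ≤ m → m ≤ j →
      exc (pt W (X i)) (pt W (X j)) (pt W (X m)) ≤ 100 * (D + R) := by
    intro i m j h1 h2
    have h3 := k1 i m j 0 h1 h2
    rwa [zpow_zero, mul_one] at h3
  refine ⟨pt W (X i), ⟨i, rfl⟩, ?_⟩
  rintro _ ⟨k, rfl⟩
  rcases lt_trichotomy i k with h | h | h
  · have h1 := side hyp.good.hyp (hexc i (i + 1) k (by omega) (by omega)) (hi' (i + 1))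
      (by have := (hstep i).1; linarith) (hstep i).2
    simp only
    linarith
  · subst h
    simp only [dist_self]
    have : (0 : ℝ) ≤ Λ := Nat.cast_nonneg _
    linarith
  · have h0 := hexc k (i - 1) i (by omega) (by omega)
    rw [exc_comm] at h0
    have h2 := hstep (i - 1)
    rw [sub_add_cancel, dist_comm] at h2
    have h1 := side hyp.good.hyp h0 (hi' (i - 1)) (by have := h2.1; linarith) h2.2
    simp only
    linarith

end Pool.Agent.H388.QF.G13
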